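import Pool.Agent.helper171_blk.Final
import Pool.Agent.helper171_blk.JS

/-!
Blocking sets of point sets with at most `K` points on a line.
-/

open scoped LinearAlgebra.Projectivization

theorem Pool.Agent.Results.MP_ad382c_co.FewCollinear.result :
    ∀ (K : ℕ) (R : Finset (ℝ × ℝ)) (B : Finset (ℙ ℝ (Fin 3 → ℝ))),
      ¬ Collinear ℝ (R : Set (ℝ × ℝ)) → Helper171.Blocks R B →
      (∀ S ⊆ R, Collinear ℝ (S : Set (ℝ × ℝ)) → S.card ≤ K) →
      (K ≤ 5 → 5 * R.card ≤ (K + 5) * B.card + 8 * K + 10) ∧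
      (5 ≤ K → 4 * R.card ≤ (K + 3) * B.card + 5 * K + 15) := by
  intro K R B hcol hB hK
  obtain ⟨C, hV, hL⟩ := Helper171.exists_conf R B hcol hB
  have hb : ∀ v, C.A.b v ≤ K := by
    intro v
    have h := hK ((C.A.L v).image fun i : {x // x ∈ R} => (i : ℝ × ℝ)) (by
      intro x hx
      obtain ⟨i, -, rfl⟩ := Finset.mem_image.1 hx
      exact i.2) (by
      rw [Finset.coe_image]
      exact hL v)
    rwa [Finset.card_image_of_injective _ Subtype.val_injective] at h
  have hK2 : 2 ≤ K := by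
    obtain ⟨v, -, hv, -, -⟩ := hV
    exact le_trans (Helper171.two_le_b C hv) (hb v)
  refine ⟨fun h5 => ?_, fun h5 => ?_⟩
  · have h := Helper171.dual_K5 C K hK2 h5 fun v _ => hb v
    simpa using h
  · have h := Helper171.dual_K C K h5 fun v _ => hb v
    simpa using h
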