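import Pool.Agent.helper171_blk.Final
import Pool.Agent.helper171_blk.JS

/-!
Every blocking set of a noncollinear set of `n` points of the plane has at least `(8 n - 83) / 23`
points.
-/

open scoped LinearAlgebra.Projectivization

theorem Pool.Agent.Results.MP_ad382c_co.General.result :
    ∀ (R : Finset (ℝ × ℝ)) (B : Finset (ℙ ℝ (Fin 3 → ℝ))),
      ¬ Collinear ℝ (R : Set (ℝ × ℝ)) → Helper171.Blocks R B →
      8 * R.card ≤ 23 * B.card + 83 := by
  intro R B hcol hB
  obtain ⟨C, hV, -⟩ := Helper171.exists_conf R B hcol hB
  have h := Helper171.dual_bound C hV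
  simpa using h
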