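import Pool.Agent.helper171_blk.JT2
import Pool.Agent.helper171_blk.JT3

/-!
Two lines: a blocking set of a noncollinear set has at least `s - 1` points, where `s` is the
number of points of the set on any two lines; this is sharp for all sizes.
-/

open scoped LinearAlgebra.Projectivization

theorem Pool.Agent.Results.MP_ad382c_co.TwoLines.result :
    (∀ (R : Finset (ℝ × ℝ)) (B : Finset (ℙ ℝ (Fin 3 → ℝ))),
      ¬ Collinear ℝ (R : Set (ℝ × ℝ)) → Helper171.Blocks R B →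
      ∀ S₁ ⊆ R, ∀ S₂ ⊆ R, Collinear ℝ (S₁ : Set (ℝ × ℝ)) → Collinear ℝ (S₂ : Set (ℝ × ℝ)) →
        (S₁ ∪ S₂).card ≤ B.card + 1) ∧
    (∀ a c : ℕ, 2 ≤ a → 2 ≤ c → ∃ (S₁ S₂ : Finset (ℝ × ℝ)) (B : Finset (ℙ ℝ (Fin 3 → ℝ))),
      Collinear ℝ (S₁ : Set (ℝ × ℝ)) ∧ Collinear ℝ (S₂ : Set (ℝ × ℝ)) ∧
      ¬ Collinear ℝ ((S₁ ∪ S₂ : Finset (ℝ × ℝ)) : Set (ℝ × ℝ)) ∧ Helper171.Blocks (S₁ ∪ S₂) B ∧
      Disjoint S₁ S₂ ∧ S₁.card = a ∧ S₂.card = c ∧ B.card + 1 = a + c) :=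
  ⟨fun R B hcol hB S₁ h₁ S₂ h₂ hc₁ hc₂ =>
    Helper171.two_lines_lower R B hcol hB S₁ S₂ h₁ h₂ hc₁ hc₂,
   Helper171.two_lines_sharp⟩
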